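import Pool.Agent.E8helper58.CM.Basic
import Pool.Agent.E8helper58.FV.Sphere
import Pool.Agent.W52.SG.TR

/-!
# An induced 4-cycle separates a flag homology 2-sphere in two connected sides
-/

set_option autoImplicit false
set_option linter.unusedSectionVars false

namespace Pool.Agent.E8helper47.CM

open Module Pool.Agent.W907.SG Pool.Agent.W907.SM Pool.Agent.TH652.Dual Pool.Agent.E8helper58.FV
open Pool.Agent.E8helper58.CM (SphA Conn Sq Sides S_JORDAN)

variable {V : Type} [Fintype V] [LinearOrder V] {G : SimpleGraph V} {n : ℕ} {S : Finset V}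

open Classical in
/-- the part of the chain `z` on the simplices which meet `X` -/
noncomputable def rr (X : Set V) (z : Finset V → ℝ) : Finset V → ℝ :=
  fun T => if ∃ a ∈ T, a ∈ X then z T else 0

theorem rr_pos {X : Set V} {z : Finset V → ℝ} {T : Finset V} {a : V} (h : a ∈ T) (hX : a ∈ X) :
    rr X z T = z T := if_pos ⟨a, h, hX⟩

theorem rr_neg {X : Set V} {z : Finset V → ℝ} {T : Finset V} (h : ∀ a ∈ T, a ∉ X) :
    rr X z T = 0 := if_neg fun ⟨a, ha, haX⟩ => h a ha haX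

theorem rr_KK {A X : Set V} {d : ℕ} {z : Finset V → ℝ} (hz : z ∈ KK G (triv V) A ∅ d) :
    rr X z ∈ KK G (triv V) A ∅ d := by
  rw [mem_KK_triv] at hz ⊢
  intro T hT
  unfold rr
  split_ifs
  · exact hz T hT
  · rfl

theorem bd_rr {X L : Set V} {d : ℕ} {z : Finset V → ℝ} (hz : z ∈ ZZ G (triv V) (lk G S) ∅ (d + 1))
    (hX : ∀ x ∈ X, ∀ t ∈ lk G S, G.Adj x t → t ∉ X → t ∈ L) : bd ℝ (rr X z) ∈ ZZ G (triv V) L ∅ d := by
  have hzK := hz.1
  rw [SetLike.mem_coe, mem_KK_triv] at hzK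
  refine ⟨?_, bd_bd _⟩
  rw [SetLike.mem_coe, mem_KK_triv]
  intro T hT
  by_cases hTX : ∃ a ∈ T, a ∈ X
  · have h1 := congrFun (show bd ℝ z = 0 from hz.2) T
    rw [Pi.zero_apply] at h1
    rw [← h1, bd_apply, bd_apply]
    refine Finset.sum_congr rfl fun u _ => ?_
    obtain ⟨a, ha, haX⟩ := hTX
    rw [rr_pos (Finset.mem_insert_of_mem ha) haX]
  · rw [bd_apply]
    refine Finset.sum_eq_zero fun u hu => ?_
    by_cases hu0 : rr X z (insert u T) = 0
    · rw [hu0, smul_zero]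
    · exfalso
      apply hT
      have huX : ∃ a ∈ insert u T, a ∈ X := by
        by_contra h
        exact hu0 (if_neg h)
      have hzu : z (insert u T) ≠ 0 := by
        intro h
        apply hu0
        unfold rr
        rw [h, ite_self]
      have hcl : G.IsClique ((insert u T : Finset V) : Set V) ∧ ((insert u T : Finset V) : Set V) ⊆ lk G S ∧
          (insert u T).card = d + 1 := by
        by_contra h
        exact hzu (hzK _ h)
      obtain ⟨a, ha, haX⟩ := huX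
      have hau : a = u := by
        rcases Finset.mem_insert.1 ha with h | h
        · exact h
        · exact absurd ⟨a, h, haX⟩ hTX
      rw [hau] at haX
      have huT : u ∉ T := by simpa using hu
      have hc := hcl.2.2
      rw [Finset.card_insert_of_notMem huT] at hc
      refine ⟨hcl.1.subset (by simp), fun t ht => ?_, by omega⟩
      have htT : t ∈ T := ht
      refine hX u haX t (hcl.2.1 (Finset.mem_coe.2 (Finset.mem_insert_of_mem htT))) ?_
        (fun h => hTX ⟨t, htT, h⟩)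
      exact hcl.1 (Finset.mem_coe.2 (Finset.mem_insert_self _ _))
        (Finset.mem_coe.2 (Finset.mem_insert_of_mem htT)) (fun e => huT (e ▸ htT))

/-- the fundamental class is nonzero on all top simplices -/
theorem full (hS : Sph n G) : ∀ (d : ℕ) (S : Finset V), G.IsClique (S : Set V) → d + S.card = n →
    ∀ z ∈ ZZ G (triv V) (lk G S) ∅ d, z ≠ 0 → ∀ T : Finset V, G.IsClique (T : Set V) →
    (T : Set V) ⊆ lk G S → T.card = d → z T ≠ 0 := by
  classical
  intro d
  induction d with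
  | zero =>
    intro S hcl hd z hz hz0 T _ _ hT h0
    have hT0 : T = ∅ := Finset.card_eq_zero.1 hT
    subst hT0
    have hzK := hz.1
    rw [SetLike.mem_coe, mem_KK_triv] at hzK
    apply hz0
    funext R
    by_cases hR : R = ∅
    · rw [hR]; exact h0
    · exact hzK R fun h => hR (Finset.card_eq_zero.1 h.2.2)
  | succ d ih =>
    intro S hcl hd z hz hz0 T hTc hTl hT h0
    obtain ⟨v, hv⟩ : T.Nonempty := Finset.card_pos.1 (by omega)
    have hvl : v ∈ lk G S := hTl hv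
    have h1 := Lv_ne hS (d + 1) S hcl hd z hz hz0 v hvl
    have h3 : ((T.erase v : Finset V) : Set V) ⊆ lk G (insert v S) := by
      intro x hx
      have hx' := Finset.mem_erase.1 (Finset.mem_coe.1 hx)
      exact lk_insert_iff.2 ⟨hTc hx'.2 hv hx'.1, hTl hx'.2⟩
    have h2 := ih (insert v S) (clq_insert hcl hvl)
      (by rw [Finset.card_insert_of_notMem (notMem_of_lk hvl)]; omega) (Lv v z) (Lv_mem v hz) h1 (T.erase v)
      (hTc.subset (by simp)) h3 (by rw [Finset.card_erase_of_mem hv]; omega)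
    apply h2
    have e : Lv v z (T.erase v) = (sg v (T.erase v) : ℝ) * z (insert v (T.erase v)) :=
      if_neg (Finset.notMem_erase v T)
    rw [e, Finset.insert_erase hv, h0, mul_zero]

/-- each simplex is contained in a top simplex -/
theorem ext_clq (hS : Sph n G) (hcl : G.IsClique (S : Set V)) :
    ∃ T : Finset V, S ⊆ T ∧ G.IsClique (T : Set V) ∧ T.card = n := by
  obtain ⟨d, hd⟩ := Nat.exists_eq_add_of_le' (no_big hS hcl)
  obtain ⟨-, -, -, T, -, hTc, hTl, hTd⟩ := top_exists hS hcl hd.symm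
  have h1 := (lk_iff hcl T).1 ⟨hTc, hTl⟩
  refine ⟨S ∪ T, Finset.subset_union_left, h1.2, ?_⟩
  rw [Finset.card_union_of_disjoint h1.1]
  omega

theorem Lv_KK {d : ℕ} {c : Finset V → ℝ} (v : V) (h1 : c ∈ KK G (triv V) (lk G S) ∅ (d + 1)) :
    Lv v c ∈ KK G (triv V) (lk G (insert v S)) ∅ d := by
  rw [mem_KK_triv] at h1 ⊢
  intro R hR
  by_cases hv : v ∈ R
  · exact if_pos hv
  · have e : Lv v c R = (sg v R : ℝ) * c (insert v R) := if_neg hv
    rw [e, h1 (insert v R), mul_zero]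
    rintro ⟨h3, h4, h5⟩
    refine hR ⟨h3.subset (by simp), ?_, ?_⟩
    · intro r hr u hu
      rw [Finset.mem_insert] at hu
      rcases hu with rfl | hu
      · exact h3 (by simp [Finset.mem_coe.1 hr]) (by simp) (fun e => hv (e ▸ hr))
      · exact h4 (by simp [Finset.mem_coe.1 hr]) u hu
    · rw [Finset.card_insert_of_notMem hv] at h5
      omega

theorem lk_empty (x : V) : x ∈ lk G ∅ := fun u hu => absurd hu (Finset.notMem_empty u)

/-! ### the 4-cycle -/

/-- an induced 4-cycle -/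
def Sq0 (G : SimpleGraph V) (a b c d : V) : Prop :=
  G.Adj a b ∧ G.Adj b c ∧ G.Adj c d ∧ G.Adj d a ∧ a ≠ c ∧ b ≠ d ∧ ¬ G.Adj a c ∧ ¬ G.Adj b d

variable {a b c d : V} {g g' : Finset V → ℝ}

theorem Sq0.rot (h : Sq0 G a b c d) : Sq0 G b c d a :=
  ⟨h.2.1, h.2.2.1, h.2.2.2.1, h.1, h.2.2.2.2.2.1, h.2.2.2.2.1.symm, h.2.2.2.2.2.2.2,
    fun h' => h.2.2.2.2.2.2.1 h'.symm⟩

theorem set_rot (a b c d : V) : ({a, b, c, d} : Set V) = {b, c, d, a} := by
  ext x
  simp only [Set.mem_insert_iff, Set.mem_singleton_iff]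
  tauto

theorem sub2 (h : Sq0 G a b c d) {T : Finset V} (hT : G.IsClique (T : Set V))
    (hTC : (T : Set V) ⊆ {a, b, c, d}) : ∃ p q : V, (p = a ∨ p = c) ∧ (q = b ∨ q = d) ∧ T ⊆ {p, q} := by
  classical
  have hac : a ∈ T → c ∉ T := fun h2 h3 => h.2.2.2.2.2.2.1 (hT h2 h3 h.2.2.2.2.1)
  have hbd : b ∈ T → d ∉ T := fun h2 h3 => h.2.2.2.2.2.2.2 (hT h2 h3 h.2.2.2.2.2.1)
  refine ⟨if a ∈ T then a else c, if b ∈ T then b else d, ?_, ?_, ?_⟩
  · split_ifs <;> simp
  · split_ifs <;> simp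
  · intro x hx
    have h1 := hTC hx
    simp only [Set.mem_insert_iff, Set.mem_singleton_iff] at h1
    rw [Finset.mem_insert, Finset.mem_singleton]
    rcases h1 with h1 | h1 | h1 | h1
    · left; rw [if_pos (h1 ▸ hx), h1]
    · right; rw [if_pos (h1 ▸ hx), h1]
    · left; rw [if_neg (fun h2 => hac h2 (h1 ▸ hx)), h1]
    · right; rw [if_neg (fun h2 => hbd h2 (h1 ▸ hx)), h1]

/-- each triangle has a vertex outside the 4-cycle -/
theorem tri_meets (h : Sq0 G a b c d) {T : Finset V} (hT : G.IsClique (T : Set V)) (hc : T.card = 3) :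
    ∃ x ∈ T, x ∉ ({a, b, c, d} : Set V) := by
  by_contra hno
  push Not at hno
  obtain ⟨p, q, -, -, hs⟩ := sub2 h hT (fun x hx => hno x hx)
  have h1 := Finset.card_le_card hs
  have h2 := Finset.card_le_two (a := p) (b := q)
  omega

theorem at_b (h : Sq0 G a b c d) (hg : g ∈ ZZ G (triv V) {a, b, c, d} ∅ 2) (h0 : g {a, b} = 0) :
    g {b, c} = 0 := by
  have hgK := hg.1
  rw [SetLike.mem_coe, mem_KK_triv] at hgK
  have h1 := congrFun (show bd ℝ g = 0 from hg.2) {b}
  rw [bd_apply, Pi.zero_apply, Finset.sum_eq_single c] at h1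
  · have e : (insert c {b} : Finset V) = {b, c} := Finset.pair_comm c b
    rw [e] at h1
    rcases sg_eq_or c {b} with h9 | h9 <;> rw [h9] at h1 <;> simpa using h1
  · intro v hv hvc
    by_cases hva : v = a
    · have e : (insert v {b} : Finset V) = {a, b} := by rw [hva]
      rw [e, h0, smul_zero]
    · rw [hgK (insert v {b}), smul_zero]
      rintro ⟨h3, h4, -⟩
      have hvb : v ≠ b := by simpa using hv
      have h5 := h4 (by simp : v ∈ ((insert v {b} : Finset V) : Set V))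
      simp only [Set.mem_insert_iff, Set.mem_singleton_iff] at h5
      have h6 : v = d := by tauto
      have h7 : G.Adj v b := h3 (by simp) (by simp) hvb
      rw [h6] at h7
      exact h.2.2.2.2.2.2.2 h7.symm
  · intro h2
    exfalso
    apply h2
    simpa using h.2.1.ne'

theorem sq_zero (h : Sq0 G a b c d) (hg : g ∈ ZZ G (triv V) {a, b, c, d} ∅ 2) (h0 : g {a, b} = 0) : g = 0 := by
  have h1 := at_b h hg h0
  have hg1 : g ∈ ZZ G (triv V) {b, c, d, a} ∅ 2 := by rw [← set_rot]; exact hg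
  have h2 := at_b h.rot hg1 h1
  have hg2 : g ∈ ZZ G (triv V) {c, d, a, b} ∅ 2 := by rw [← set_rot]; exact hg1
  have h3 := at_b h.rot.rot hg2 h2
  have hgK := hg.1
  rw [SetLike.mem_coe, mem_KK_triv] at hgK
  funext T
  rw [Pi.zero_apply]
  by_cases hT : G.IsClique (T : Set V) ∧ (T : Set V) ⊆ {a, b, c, d} ∧ T.card = 2
  · obtain ⟨p, q, hp, hq, hs⟩ := sub2 h hT.1 hT.2.1
    have e : T = {p, q} := Finset.eq_of_subset_of_card_le hs (by rw [hT.2.2]; exact Finset.card_le_two)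
    rw [e]
    rcases hp with rfl | rfl <;> rcases hq with rfl | rfl
    · exact h0
    · rw [Finset.pair_comm]; exact h3
    · rw [Finset.pair_comm]; exact h1
    · exact h2
  · exact hgK T hT

theorem sq_span (h : Sq0 G a b c d) (hg : g ∈ ZZ G (triv V) {a, b, c, d} ∅ 2)
    (hg' : g' ∈ ZZ G (triv V) {a, b, c, d} ∅ 2) (hg0 : g' ≠ 0) : ∃ r : ℝ, g = r • g' := by
  have h0 : g' {a, b} ≠ 0 := fun h1 => hg0 (sq_zero h hg' h1)
  refine ⟨g {a, b} / g' {a, b}, ?_⟩
  have h1 : g - (g {a, b} / g' {a, b}) • g' ∈ ZZ G (triv V) {a, b, c, d} ∅ 2 :=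
    Submodule.sub_mem _ hg (Submodule.smul_mem _ _ hg')
  have h2 := sq_zero h h1 (by
    rw [Pi.sub_apply, Pi.smul_apply, smul_eq_mul, div_mul_cancel₀ _ h0, sub_self])
  exact sub_eq_zero.1 h2

/-- the chain of an edge -/
def ec (x y : V) : Finset V → ℝ := fun T => if T = {x, y} then (sg x {y} : ℝ) else 0

/-- the chain of a vertex -/
def dl (x : V) : Finset V → ℝ := fun T => if T = {x} then 1 else 0

theorem bd_ec {x y : V} (hxy : x ≠ y) : bd ℝ (ec x y) = dl y - dl x := by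
  funext T
  rw [bd_apply, Pi.sub_apply]
  unfold dl ec
  by_cases hy : T = {y}
  · subst hy
    rw [if_pos rfl, if_neg (fun e => hxy (Finset.singleton_injective e).symm), sub_zero,
      Finset.sum_eq_single x]
    · have e : (insert x {y} : Finset V) = {x, y} := rfl
      rw [e, if_pos rfl]
      rcases sg_eq_or x {y} with h9 | h9 <;> rw [h9] <;> simp
    · intro v _ hv
      rw [if_neg, smul_zero]
      intro e
      have h1 : x ∈ (insert v {y} : Finset V) := by rw [e]; simp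
      rw [Finset.mem_insert, Finset.mem_singleton] at h1
      rcases h1 with h1 | h1
      · exact hv h1.symm
      · exact hxy h1
    · intro h
      exact absurd (by simpa using hxy) h
  · rw [if_neg hy]
    by_cases hx : T = {x}
    · subst hx
      rw [if_pos rfl, zero_sub, Finset.sum_eq_single y]
      · have e : (insert y {x} : Finset V) = {x, y} := Finset.pair_comm y x
        rw [e, if_pos rfl]
        have h6 := sg_swap x y ∅ hxy (by simp) (by simp)
        have e1 : (sg y (∅ : Finset V) : ℤ) = 1 := by simp [sg]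
        have e2 : (sg x (∅ : Finset V) : ℤ) = 1 := by simp [sg]
        have e3 : (insert x ∅ : Finset V) = {x} := rfl
        have e4 : (insert y ∅ : Finset V) = {y} := rfl
        rw [e1, e2, e3, e4, mul_one, mul_one] at h6
        rw [h6]
        rcases sg_eq_or y {x} with h9 | h9 <;> rw [h9] <;> simp
      · intro v _ hv
        rw [if_neg, smul_zero]
        intro e
        have h1 : y ∈ (insert v {x} : Finset V) := by rw [e]; simp
        rw [Finset.mem_insert, Finset.mem_singleton] at h1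
        rcases h1 with h1 | h1
        · exact hv h1.symm
        · exact hxy h1.symm
      · intro h
        exact absurd (by simpa using hxy.symm) h
    · rw [if_neg hx, sub_zero]
      refine Finset.sum_eq_zero fun v hv => ?_
      rw [if_neg, smul_zero]
      intro e
      have hvT : v ∉ T := by simpa using hv
      have h1 : T = ({x, y} : Finset V).erase v := by rw [← e, Finset.erase_insert hvT]
      have h2 : v ∈ ({x, y} : Finset V) := by rw [← e]; simp
      rw [Finset.mem_insert, Finset.mem_singleton] at h2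
      rcases h2 with h2 | h2
      · apply hy
        rw [h1, h2]
        exact Finset.erase_insert (by simpa using hxy)
      · apply hx
        rw [h1, h2, Finset.pair_comm]
        exact Finset.erase_insert (by simpa using hxy.symm)

theorem ec_mem {x y : V} (hxy : G.Adj x y) {A : Set V} (hx : x ∈ A) (hy : y ∈ A) :
    ec x y ∈ KK G (triv V) A ∅ 2 := by
  rw [mem_KK_triv]
  intro T hT
  refine if_neg ?_
  rintro rfl
  refine hT ⟨?_, ?_, Finset.card_pair hxy.ne⟩
  · intro u hu v hv huv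
    simp only [Finset.coe_insert, Finset.coe_singleton, Set.mem_insert_iff, Set.mem_singleton_iff] at hu hv
    rcases hu with rfl | rfl <;> rcases hv with rfl | rfl
    · exact absurd rfl huv
    · exact hxy
    · exact hxy.symm
    · exact absurd rfl huv
  · intro u hu
    simp only [Finset.coe_insert, Finset.coe_singleton, Set.mem_insert_iff, Set.mem_singleton_iff] at hu
    rcases hu with rfl | rfl
    · exact hx
    · exact hy

theorem ec_ne {x y u v : V} (h : u ≠ x ∧ u ≠ y ∨ v ≠ x ∧ v ≠ y) : ec x y {u, v} = 0 := by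
  refine if_neg ?_
  intro e
  rcases h with h | h
  · have h1 : u ∈ ({x, y} : Finset V) := by rw [← e]; simp
    rw [Finset.mem_insert, Finset.mem_singleton] at h1
    tauto
  · have h1 : v ∈ ({x, y} : Finset V) := by rw [← e]; simp
    rw [Finset.mem_insert, Finset.mem_singleton] at h1
    tauto

theorem sq_cyc (h : Sq0 G a b c d) : ∃ g ∈ ZZ G (triv V) {a, b, c, d} ∅ 2, g ≠ 0 := by
  refine ⟨ec a b + ec b c + ec c d + ec d a, ⟨?_, ?_⟩, ?_⟩
  · refine Submodule.add_mem _ (Submodule.add_mem _ (Submodule.add_mem _ (ec_mem h.1 ?_ ?_) (ec_mem h.2.1 ?_ ?_))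
      (ec_mem h.2.2.1 ?_ ?_)) (ec_mem h.2.2.2.1 ?_ ?_) <;> simp
  · show bd ℝ _ = 0
    rw [map_add, map_add, map_add, bd_ec h.1.ne, bd_ec h.2.1.ne, bd_ec h.2.2.1.ne, bd_ec h.2.2.2.1.ne]
    abel
  · intro h0
    have h1 := congrFun h0 {a, b}
    rw [Pi.add_apply, Pi.add_apply, Pi.add_apply, ec_ne (x := b) (y := c) (Or.inl ⟨h.1.ne, h.2.2.2.2.1⟩),
      ec_ne (x := c) (y := d) (Or.inl ⟨h.2.2.2.2.1, h.2.2.2.1.ne'⟩),
      ec_ne (x := d) (y := a) (Or.inr ⟨h.2.2.2.2.2.1, h.1.ne'⟩), add_zero, add_zero, add_zero, Pi.zero_apply] at h1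
    unfold ec at h1
    rw [if_pos rfl] at h1
    rcases sg_eq_or a {b} with h9 | h9 <;> rw [h9] at h1 <;> norm_num at h1

/-! ### closed sets -/

/-- unions of components of `U` -/
def Cl (G : SimpleGraph V) (U X : Set V) : Prop := X ⊆ U ∧ ∀ x ∈ X, ∀ y ∈ U, y ∉ X → ¬ G.Adj x y

variable {X : Set V} {z : Finset V → ℝ}

theorem bd_mem (hz : z ∈ ZZ G (triv V) (lk G ∅) ∅ 3) (hX : Cl G ({a, b, c, d} : Set V)ᶜ X) :
    bd ℝ (rr X z) ∈ ZZ G (triv V) {a, b, c, d} ∅ 2 := by
  refine bd_rr hz ?_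
  intro x hx t _ hxt htX
  by_contra h
  exact hX.2 x hx t h htX hxt

theorem off {U : Set V} (hX : Cl G U X) {T : Finset V} (hT : G.IsClique (T : Set V)) {y : V} (hy : y ∈ T)
    (hyU : y ∈ U) (hyX : y ∉ X) : rr X z T = 0 := by
  refine rr_neg ?_
  intro x hx hxX
  refine hX.2 x hxX y hyU hyX (hT hx hy ?_)
  rintro rfl
  exact hyX hxX

theorem l_ne (hS : Sph 3 G) (hz : z ∈ ZZ G (triv V) (lk G ∅) ∅ 3) (hz0 : z ≠ 0)
    (hX : Cl G ({a, b, c, d} : Set V)ᶜ X) (hne : X.Nonempty) {y : V} (hy : y ∉ ({a, b, c, d} : Set V))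
    (hyX : y ∉ X) : bd ℝ (rr X z) ≠ 0 := by
  intro h0
  obtain ⟨t, ht⟩ := top_span hS (S := ∅) (by simp) (by simp) hz hz0
    (⟨rr_KK hz.1, h0⟩ : rr X z ∈ ZZ G (triv V) (lk G ∅) ∅ 3)
  obtain ⟨x, hx⟩ := hne
  obtain ⟨T1, hT1, hT1c, hT1d⟩ := ext_clq hS (S := {x}) (by simp)
  obtain ⟨T2, hT2, hT2c, hT2d⟩ := ext_clq hS (S := {y}) (by simp)
  have hx1 : x ∈ T1 := hT1 (by simp)
  have hy2 : y ∈ T2 := hT2 (by simp)
  have hz1 := full hS 3 ∅ (by simp) (by simp) z hz hz0 T1 hT1c (fun x _ => lk_empty x) hT1d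
  have hz2 := full hS 3 ∅ (by simp) (by simp) z hz hz0 T2 hT2c (fun x _ => lk_empty x) hT2d
  have e1 := congrFun ht T1
  have e2 := congrFun ht T2
  rw [rr_pos hx1 hx, Pi.smul_apply, smul_eq_mul] at e1
  rw [off hX hT2c hy2 hy hyX, Pi.smul_apply, smul_eq_mul] at e2
  rcases mul_eq_zero.1 e2.symm with h | h
  · rw [h, zero_mul] at e1
    exact hz1 e1
  · exact hz2 h

theorem no_three_cl (hS : Sph 3 G) (h : Sq0 G a b c d) {X1 X2 X3 : Set V}
    (h1 : Cl G ({a, b, c, d} : Set V)ᶜ X1) (h2 : Cl G ({a, b, c, d} : Set V)ᶜ X2)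
    (h3 : Cl G ({a, b, c, d} : Set V)ᶜ X3) (n1 : X1.Nonempty) (n2 : X2.Nonempty) (n3 : X3.Nonempty)
    (d12 : ∀ x ∈ X1, x ∉ X2) (d13 : ∀ x ∈ X3, x ∉ X1) (d23 : ∀ x ∈ X3, x ∉ X2) : False := by
  obtain ⟨z, hz, hz0, -⟩ := top_exists hS (S := ∅) (by simp) (d := 3) (by simp)
  obtain ⟨x1, hx1⟩ := n1
  obtain ⟨x3, hx3⟩ := n3
  obtain ⟨l, hl⟩ := sq_span h (bd_mem hz h1) (bd_mem hz h2) (l_ne hS hz hz0 h2 n2 (h3.1 hx3) (d23 _ hx3))
  have hq : rr X1 z - l • rr X2 z ∈ ZZ G (triv V) (lk G ∅) ∅ 3 := by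
    refine ⟨Submodule.sub_mem _ (rr_KK hz.1) (Submodule.smul_mem _ _ (rr_KK hz.1)), ?_⟩
    show bd ℝ _ = 0
    rw [map_sub, map_smul, hl, sub_self]
  obtain ⟨t, ht⟩ := top_span hS (S := ∅) (by simp) (by simp) hz hz0 hq
  obtain ⟨T1, hT1, hT1c, hT1d⟩ := ext_clq hS (S := {x1}) (by simp)
  obtain ⟨T3, hT3, hT3c, hT3d⟩ := ext_clq hS (S := {x3}) (by simp)
  have hx1T : x1 ∈ T1 := hT1 (by simp)
  have hx3T : x3 ∈ T3 := hT3 (by simp)
  have hz1 := full hS 3 ∅ (by simp) (by simp) z hz hz0 T1 hT1c (fun x _ => lk_empty x) hT1d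
  have hz3 := full hS 3 ∅ (by simp) (by simp) z hz hz0 T3 hT3c (fun x _ => lk_empty x) hT3d
  have e1 := congrFun ht T1
  have e3 := congrFun ht T3
  rw [Pi.sub_apply, Pi.smul_apply, Pi.smul_apply, rr_pos hx1T hx1, off h2 hT1c hx1T (h1.1 hx1) (d12 _ hx1),
    smul_zero, sub_zero, smul_eq_mul] at e1
  rw [Pi.sub_apply, Pi.smul_apply, Pi.smul_apply, off h1 hT3c hx3T (h3.1 hx3) (d13 _ hx3),
    off h2 hT3c hx3T (h3.1 hx3) (d23 _ hx3), smul_zero, sub_zero, smul_eq_mul] at e3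
  rcases mul_eq_zero.1 e3.symm with h | h
  · rw [h, zero_mul] at e1
    exact hz1 e1
  · exact hz3 h

/-- the complement of the 4-cycle is not connected -/
theorem exists_cl (hS : Sph 3 G) (h : Sq0 G a b c d) : ∃ X : Set V, Cl G ({a, b, c, d} : Set V)ᶜ X ∧
    X.Nonempty ∧ ∃ y, y ∉ ({a, b, c, d} : Set V) ∧ y ∉ X := by
  classical
  by_contra hno
  push Not at hno
  obtain ⟨z, hz, hz0, T0, hT0, hT0c, -, hT0d⟩ := top_exists hS (S := ∅) (by simp) (d := 3) (by simp)
  obtain ⟨g, hg, hg0⟩ := sq_cyc h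
  have hgK := hg.1
  rw [SetLike.mem_coe, mem_KK_triv] at hgK
  have hg1 : g ∈ ZZ G (triv V) (lk G ∅) ∅ 2 := ZZ_mono (fun x _ => lk_empty x) hg
  rw [← exact_of_beta (by rw [hS ∅ (by simp) 2, if_neg (by simp)])] at hg1
  obtain ⟨w, hw, hwg⟩ := hg1
  have hr : ∀ x : V, ∃ r : ℝ, x ∉ ({a, b, c, d} : Set V) → Lv x w = r • Lv x z := by
    intro x
    by_cases hx : x ∈ ({a, b, c, d} : Set V)
    · exact ⟨0, fun h => absurd hx h⟩
    · have h1 : Lv x w ∈ ZZ G (triv V) (lk G (insert x ∅)) ∅ 2 := by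
        refine ⟨Lv_KK x hw, ?_⟩
        show bd ℝ _ = 0
        rw [bd_Lv, hwg]
        funext R
        rw [Pi.neg_apply, Pi.zero_apply]
        unfold Lv
        split_ifs with hxR
        · exact neg_zero
        · rw [hgK (insert x R), mul_zero, neg_zero]
          intro h2
          exact hx (h2.2.1 (by simp))
      obtain ⟨r, hr⟩ := top_span hS (S := insert x ∅) (by simp) (by simp)
        (Lv_mem x hz) (Lv_ne hS 3 ∅ (by simp) (by simp) z hz hz0 x (lk_empty x)) h1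
      exact ⟨r, fun _ => hr⟩
  choose r hr using hr
  have key : ∀ x : V, x ∉ ({a, b, c, d} : Set V) → ∀ T : Finset V, x ∈ T → w T = r x * z T := by
    intro x hx T hxT
    have h1 := congrFun (hr x hx) (T.erase x)
    have e : ∀ q : Finset V → ℝ, Lv x q (T.erase x) = (sg x (T.erase x) : ℝ) * q T := by
      intro q
      have e1 : Lv x q (T.erase x) = (sg x (T.erase x) : ℝ) * q (insert x (T.erase x)) :=
        if_neg (Finset.notMem_erase x T)
      rw [e1, Finset.insert_erase hxT]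
    rw [Pi.smul_apply, e, e, smul_eq_mul] at h1
    rcases sg_eq_or x (T.erase x) with h9 | h9 <;> rw [h9] at h1 <;> push_cast at h1 <;> linarith
  obtain ⟨x0, hx0, hx0C⟩ := tri_meets h hT0c hT0d
  have hB := hno {x | x ∉ ({a, b, c, d} : Set V) ∧ r x = r x0} ⟨fun x hx => hx.1, by
    intro x hx y hy hyB hxy
    obtain ⟨T, hT, hTc, hTd⟩ := ext_clq hS (S := {x, y}) (by
      intro u hu v hv huv
      simp only [Finset.coe_insert, Finset.coe_singleton, Set.mem_insert_iff, Set.mem_singleton_iff] at hu hv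
      rcases hu with rfl | rfl <;> rcases hv with rfl | rfl
      · exact absurd rfl huv
      · exact hxy
      · exact hxy.symm
      · exact absurd rfl huv)
    have h1 := key x hx.1 T (hT (by simp))
    have h2 := key y hy T (hT (by simp))
    have hz1 := full hS 3 ∅ (by simp) (by simp) z hz hz0 T hTc (fun x _ => lk_empty x) hTd
    rw [h1] at h2
    exact hyB ⟨hy, (mul_right_cancel₀ hz1 h2).symm.trans hx.2⟩⟩ ⟨x0, hx0C, rfl⟩
  have hwz : w = r x0 • z := by
    have hwK := hw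
    have hzK := hz.1
    rw [SetLike.mem_coe, mem_KK_triv] at hwK hzK
    funext T
    rw [Pi.smul_apply, smul_eq_mul]
    by_cases hT : G.IsClique (T : Set V) ∧ (T : Set V) ⊆ lk G ∅ ∧ T.card = 3
    · obtain ⟨x, hx, hxC⟩ := tri_meets h hT.1 hT.2.2
      rw [key x hxC T hx, (hB x hxC).2]
    · rw [hwK T hT, hzK T hT, mul_zero]
  apply hg0
  rw [← hwg, hwz, map_smul, show bd ℝ z = 0 from hz.2, smul_zero]

theorem jordan0 (hS : Sph 3 G) (h : Sq0 G a b c d) : ∃ X Y : Set V, X ∪ Y = ({a, b, c, d} : Set V)ᶜ ∧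
    Disjoint X Y ∧ Conn G X ∧ Conn G Y ∧ (∀ x ∈ X, ∀ y ∈ Y, ¬ G.Adj x y) ∧
    ∀ u ∈ ({a, b, c, d} : Set V), (∃ x ∈ X, G.Adj u x) ∧ (∃ y ∈ Y, G.Adj u y) := by
  classical
  obtain ⟨X, hX, hXn, y0, hy0, hy0X⟩ := exists_cl hS h
  have hsym : ∀ X : Set V, Cl G ({a, b, c, d} : Set V)ᶜ X → Cl G ({a, b, c, d} : Set V)ᶜ
      (({a, b, c, d} : Set V)ᶜ \ X) := by
    intro X hX
    refine ⟨fun x hx => hx.1, fun x hx y hy hyn hxy => ?_⟩
    have hyX : y ∈ X := by
      by_contra h1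
      exact hyn ⟨hy, h1⟩
    exact hX.2 y hyX x hx.1 hx.2 hxy.symm
  have hY := hsym X hX
  have hYn : (({a, b, c, d} : Set V)ᶜ \ X).Nonempty := ⟨y0, hy0, hy0X⟩
  have hconn : ∀ X Y : Set V, Cl G ({a, b, c, d} : Set V)ᶜ X → Cl G ({a, b, c, d} : Set V)ᶜ Y → X.Nonempty →
      Y.Nonempty → (∀ x ∈ Y, x ∉ X) → Conn G X := by
    intro X Y hX hY hXn hYn hXY
    refine ⟨hXn, fun B hBX hBn hBne => ?_⟩
    by_contra hno
    push Not at hno
    have hB : Cl G ({a, b, c, d} : Set V)ᶜ B := by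
      refine ⟨hBX.trans hX.1, fun x hx y hy hyB hxy => ?_⟩
      by_cases hyX : y ∈ X
      · exact hno x hx y hyX hyB hxy
      · exact hX.2 x (hBX hx) y hy hyX hxy
    have hB' : Cl G ({a, b, c, d} : Set V)ᶜ (X \ B) := by
      refine ⟨fun x hx => hX.1 hx.1, fun x hx y hy hyB hxy => ?_⟩
      by_cases hyX : y ∈ X
      · have hyB' : y ∈ B := by
          by_contra h1
          exact hyB ⟨hyX, h1⟩
        exact hno y hyB' x hx.1 hx.2 hxy.symm
      · exact hX.2 x hx.1 y hy hyX hxy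
    have hB'n : (X \ B).Nonempty := by
      by_contra h1
      rw [Set.not_nonempty_iff_eq_empty, Set.sdiff_eq_empty] at h1
      exact hBne (Set.Subset.antisymm hBX h1)
    exact no_three_cl hS h hB hB' hY hBn hB'n hYn (fun x hx h1 => h1.2 hx) (fun x hx h1 => hXY x hx (hBX h1))
      (fun x hx h1 => hXY x hx h1.1)
  have hmeet : ∀ X : Set V, Cl G ({a, b, c, d} : Set V)ᶜ X → X.Nonempty →
      (∃ y, y ∉ ({a, b, c, d} : Set V) ∧ y ∉ X) → ∀ u ∈ ({a, b, c, d} : Set V), ∃ x ∈ X, G.Adj u x := by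
    intro X hX hXn hy
    obtain ⟨y, hy, hyX⟩ := hy
    obtain ⟨z, hz, hz0, -⟩ := top_exists hS (S := ∅) (by simp) (d := 3) (by simp)
    have hzK := hz.1
    rw [SetLike.mem_coe, mem_KK_triv] at hzK
    have h1 := bd_mem hz hX
    have h2 := l_ne hS hz hz0 hX hXn hy hyX
    have hpair : ∀ p q : V, p ∈ ({a, b, c, d} : Set V) → q ∈ ({a, b, c, d} : Set V) →
        bd ℝ (rr X z) {p, q} ≠ 0 → ∃ x ∈ X, G.Adj p x := by
      intro p q hp hq hne
      rw [bd_apply] at hne
      obtain ⟨t, ht, htn⟩ := Finset.exists_ne_zero_of_sum_ne_zero hne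
      have h3 : rr X z (insert t {p, q}) ≠ 0 := fun h0 => htn (by rw [h0, smul_zero])
      have h4 : ∃ x ∈ (insert t {p, q} : Finset V), x ∈ X := by
        by_contra h5
        push Not at h5
        exact h3 (rr_neg h5)
      obtain ⟨x, hx, hxX⟩ := h4
      have h6 : z (insert t {p, q}) ≠ 0 := by
        rwa [rr_pos hx hxX] at h3
      have h7 : G.IsClique ((insert t {p, q} : Finset V) : Set V) := by
        by_contra h8
        exact h6 (hzK _ fun h9 => h8 h9.1)
      have hxC := hX.1 hxX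
      refine ⟨x, hxX, h7 (by simp) hx ?_⟩
      rintro rfl
      exact hxC hp
    have hr1 : bd ℝ (rr X z) ∈ ZZ G (triv V) {b, c, d, a} ∅ 2 := by rw [← set_rot]; exact h1
    have hr2 : bd ℝ (rr X z) ∈ ZZ G (triv V) {c, d, a, b} ∅ 2 := by rw [← set_rot]; exact hr1
    have hr3 : bd ℝ (rr X z) ∈ ZZ G (triv V) {d, a, b, c} ∅ 2 := by rw [← set_rot]; exact hr2
    intro u hu
    have hu' := hu
    simp only [Set.mem_insert_iff, Set.mem_singleton_iff] at hu'
    rcases hu' with e | e | e | e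
    · subst e
      exact hpair u b (by simp) (by simp) fun h0 => h2 (sq_zero h h1 h0)
    · subst e
      exact hpair u c (by simp) (by simp) fun h0 => h2 (sq_zero h.rot hr1 h0)
    · subst e
      exact hpair u d (by simp) (by simp) fun h0 => h2 (sq_zero h.rot.rot hr2 h0)
    · subst e
      exact hpair u a (by simp) (by simp) fun h0 => h2 (sq_zero h.rot.rot.rot hr3 h0)
  have hXY : ∀ x ∈ ({a, b, c, d} : Set V)ᶜ \ X, x ∉ X := fun x hx => hx.2
  obtain ⟨x0, hx0⟩ := hXn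
  refine ⟨X, ({a, b, c, d} : Set V)ᶜ \ X, ?_, Set.disjoint_sdiff_right, hconn _ _ hX hY ⟨x0, hx0⟩ hYn hXY,
    hconn _ _ hY hX hYn ⟨x0, hx0⟩ (fun x hx h1 => h1.2 hx), fun x hx y hy => hX.2 x hx y hy.1 hy.2, fun u hu => ⟨?_, ?_⟩⟩
  · exact Set.union_sdiff_cancel hX.1
  · exact hmeet X hX ⟨x0, hx0⟩ ⟨y0, hy0, hy0X⟩ u hu
  · exact hmeet _ hY hYn ⟨x0, hX.1 hx0, fun h1 => h1.2 hx0⟩ u hu

/-! ### transfer to the graph induced on `A` -/

theorem sph_induce {A : Set V} [Fintype {x // x ∈ A}] (hA : SphA n G A) :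
    Sph n (G.comap (Subtype.val : {x // x ∈ A} → V)) := by
  classical
  intro S hcl i
  have hcl' : G.IsClique ((S.map (Function.Embedding.subtype _) : Finset V) : Set V) := by
    intro x hx y hy hxy
    rw [Finset.mem_coe, Finset.mem_map] at hx hy
    obtain ⟨x', hx', rfl⟩ := hx
    obtain ⟨y', hy', rfl⟩ := hy
    exact hcl hx' hy' (fun e => hxy (by rw [e]))
  have hsub : ((S.map (Function.Embedding.subtype _) : Finset V) : Set V) ⊆ A := by
    intro x hx
    rw [Finset.mem_coe, Finset.mem_map] at hx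
    obtain ⟨x', -, rfl⟩ := hx
    exact x'.2
  have h1 := hA _ hcl' hsub i
  rw [Finset.card_map] at h1
  rw [← h1]
  have h2 := Pool.Agent.W52.SG.tr {x // x ∈ A ∩ lk G (S.map (Function.Embedding.subtype _))} V ℝ ℝ G
    (G.comap Subtype.val) (triv V) Subtype.val (fun _ _ h => h) (fun _ _ => Iff.rfl) i
  have h3 := Pool.Agent.W52.SG.tr {x // x ∈ A ∩ lk G (S.map (Function.Embedding.subtype _))} {x // x ∈ A} ℝ ℝ
    (G.comap (Subtype.val : {x // x ∈ A} → V)) (G.comap Subtype.val) (triv {x // x ∈ A})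
    (fun w => ⟨w.1, w.2.1⟩) (fun _ _ h => h) (fun _ _ => Iff.rfl) i
  rw [Subtype.range_val] at h2
  have e : Set.range (fun w : {x // x ∈ A ∩ lk G (S.map (Function.Embedding.subtype _))} =>
      (⟨w.1, w.2.1⟩ : {x // x ∈ A})) = lk (G.comap (Subtype.val : {x // x ∈ A} → V)) S := by
    ext x
    constructor
    · rintro ⟨w, rfl⟩ u hu
      exact w.2.2 u.1 (Finset.mem_map.2 ⟨u, hu, rfl⟩)
    · intro hx
      refine ⟨⟨x.1, x.2, ?_⟩, rfl⟩
      intro u hu
      obtain ⟨u', hu', rfl⟩ := Finset.mem_map.1 hu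
      exact hx u' hu'
  rw [e] at h3
  exact h3.trans h2.symm

theorem conn_image {A : Set V} {X : Set {x // x ∈ A}} (h : Conn (G.comap (Subtype.val : {x // x ∈ A} → V)) X) :
    Conn G (Subtype.val '' X) := by
  refine ⟨h.1.image _, fun B hB hBn hBne => ?_⟩
  obtain ⟨p, hp, q, hq, hqB, hpq⟩ := h.2 (Subtype.val ⁻¹' B) (by
    intro x hx
    obtain ⟨x', hx', e⟩ := hB hx
    rwa [← Subtype.ext e]) (by
    obtain ⟨x, hx⟩ := hBn
    obtain ⟨x', hx', e⟩ := hB hx
    exact ⟨x', by rw [Set.mem_preimage, e]; exact hx⟩) (by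
    intro e
    apply hBne
    refine Set.Subset.antisymm hB ?_
    rintro x ⟨x', hx', rfl⟩
    rw [← e] at hx'
    exact hx')
  exact ⟨p.1, hp, q.1, ⟨q, hq, rfl⟩, hqB, hpq⟩

theorem t_JORDAN : S_JORDAN := by
  classical
  intro V _ _ G A hA a b c d hsq
  obtain ⟨ha, hb, hc, hd, hab, hbc, hcd, hda, hac, hbd, hnac, hnbd⟩ := hsq
  obtain ⟨X, Y, hXY, hdis, hX, hY, hno, hu⟩ := jordan0 (sph_induce hA)
    (a := (⟨a, ha⟩ : {x // x ∈ A})) (b := ⟨b, hb⟩) (c := ⟨c, hc⟩) (d := ⟨d, hd⟩)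
    ⟨hab, hbc, hcd, hda, fun e => hac (congrArg Subtype.val e), fun e => hbd (congrArg Subtype.val e), hnac, hnbd⟩
  refine ⟨Subtype.val '' X, Subtype.val '' Y, ?_, ?_, conn_image hX, conn_image hY, ?_, ?_⟩
  · rw [← Set.image_union, hXY]
    ext x
    constructor
    · rintro ⟨x', hx', rfl⟩
      refine ⟨x'.2, fun h => hx' ?_⟩
      simp only [Set.mem_insert_iff, Set.mem_singleton_iff] at h ⊢
      rcases h with h | h | h | h
      · exact Or.inl (Subtype.ext h)
      · exact Or.inr (Or.inl (Subtype.ext h))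
      · exact Or.inr (Or.inr (Or.inl (Subtype.ext h)))
      · exact Or.inr (Or.inr (Or.inr (Subtype.ext h)))
    · rintro ⟨hxA, hx⟩
      refine ⟨⟨x, hxA⟩, fun h => hx ?_, rfl⟩
      simp only [Set.mem_insert_iff, Set.mem_singleton_iff, Subtype.mk.injEq] at h ⊢
      exact h
  · exact (Set.disjoint_image_iff Subtype.val_injective).2 hdis
  · rintro x ⟨x', hx', rfl⟩ y ⟨y', hy', rfl⟩
    exact hno x' hx' y' hy'
  · intro u huC
    have huA : u ∈ A := by
      simp only [Set.mem_insert_iff, Set.mem_singleton_iff] at huC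
      rcases huC with rfl | rfl | rfl | rfl
      · exact ha
      · exact hb
      · exact hc
      · exact hd
    obtain ⟨⟨x, hx, h1⟩, y, hy, h2⟩ := hu ⟨u, huA⟩ (by
      simp only [Set.mem_insert_iff, Set.mem_singleton_iff, Subtype.mk.injEq] at huC ⊢
      exact huC)
    exact ⟨⟨x.1, ⟨x, hx, rfl⟩, h1⟩, y.1, ⟨y, hy, rfl⟩, h2⟩

end Pool.Agent.E8helper47.CM
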